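import Pool.Agent.W133.DQ.StC
import Pool.Agent.W133.DQ.StF

/-! Displacement in the disk: quasimorphisms on `GG` are additive on `G0 ⊓ G1`. -/

set_option autoImplicit false

open scoped ContDiff
open Set Filter Topology

namespace Pool.Agent.W923.DQ

open Pool.Agent.W133.DQ

/-- determinant of a linear map of the plane -/
lemma det_P2 (L : P2 →L[ℝ] P2) :
    L.det = (L (1, 0)).1 * (L (0, 1)).2 - (L (0, 1)).1 * (L (1, 0)).2 := by
  show LinearMap.det (L : P2 →ₗ[ℝ] P2) = _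
  rw [← LinearMap.det_toMatrix (Module.Basis.finTwoProd ℝ), Matrix.det_fin_two]
  simp [LinearMap.toMatrix_apply]

/-- radial factor -/
noncomputable def rad (c r : ℝ) : ℝ := c * (Real.sqrt (1 + (c ^ 2 - 1) * r))⁻¹

lemma q_pos {c r : ℝ} (hc : 0 < c) (h0 : 0 ≤ r) (h1 : r ≤ 1) : 0 < 1 + (c ^ 2 - 1) * r := by
  have hc2 : 0 < c ^ 2 := by positivity
  rcases eq_or_lt_of_le h1 with rfl | h
  · linarith
  · have : 0 ≤ c ^ 2 * r := by positivity
    linarith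

/-- radial map of the disk -/
noncomputable def Rf (c : ℝ) (p : P2) : P2 :=
  (rad c (p.1 ^ 2 + p.2 ^ 2) * p.1, rad c (p.1 ^ 2 + p.2 ^ 2) * p.2)

lemma rad_sq {c r : ℝ} (hc : 0 < c) (h0 : 0 ≤ r) (h1 : r ≤ 1) :
    rad c r ^ 2 * (1 + (c ^ 2 - 1) * r) = c ^ 2 := by
  have hq := q_pos hc h0 h1
  have hs := Real.sq_sqrt hq.le
  have hs0 := Real.sqrt_pos.2 hq
  unfold rad
  rw [mul_pow, inv_pow, hs]
  field_simp

lemma Rf_nq {c : ℝ} (hc : 0 < c) {p : P2} (hp : p.1 ^ 2 + p.2 ^ 2 ≤ 1) :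
    ((Rf c p).1 ^ 2 + (Rf c p).2 ^ 2) * (1 + (c ^ 2 - 1) * (p.1 ^ 2 + p.2 ^ 2)) =
      c ^ 2 * (p.1 ^ 2 + p.2 ^ 2) := by
  have h := rad_sq hc (by positivity : 0 ≤ p.1 ^ 2 + p.2 ^ 2) hp
  unfold Rf
  simp only
  linear_combination (p.1 ^ 2 + p.2 ^ 2) * h

lemma Rf_le {c : ℝ} (hc : 0 < c) {p : P2} (hp : p.1 ^ 2 + p.2 ^ 2 ≤ 1) :
    (Rf c p).1 ^ 2 + (Rf c p).2 ^ 2 ≤ 1 := by
  have h := Rf_nq hc hp
  have hq := q_pos hc (by positivity : 0 ≤ p.1 ^ 2 + p.2 ^ 2) hp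
  by_contra hcon
  push Not at hcon
  have := mul_lt_mul_of_pos_right hcon hq
  nlinarith

lemma Rf_Rf {c d : ℝ} (hc : 0 < c) (hd : 0 < d) {p : P2} (hp : p.1 ^ 2 + p.2 ^ 2 ≤ 1) :
    Rf c (Rf d p) = Rf (c * d) p := by
  have h0 : 0 ≤ p.1 ^ 2 + p.2 ^ 2 := by positivity
  have h1 := Rf_nq hd hp
  have h2 := Rf_le hd hp
  have h3 : 0 ≤ (Rf d p).1 ^ 2 + (Rf d p).2 ^ 2 := by positivity
  have hqd := q_pos hd h0 hp
  have hqc := q_pos hc h3 h2
  have hqcd := q_pos (mul_pos hc hd) h0 hp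
  have key : rad c ((Rf d p).1 ^ 2 + (Rf d p).2 ^ 2) * rad d (p.1 ^ 2 + p.2 ^ 2) =
      rad (c * d) (p.1 ^ 2 + p.2 ^ 2) := by
    unfold rad
    have e : (1 + (c ^ 2 - 1) * ((Rf d p).1 ^ 2 + (Rf d p).2 ^ 2)) *
        (1 + (d ^ 2 - 1) * (p.1 ^ 2 + p.2 ^ 2)) =
        1 + ((c * d) ^ 2 - 1) * (p.1 ^ 2 + p.2 ^ 2) := by
      linear_combination (c ^ 2 - 1) * h1
    rw [← e, Real.sqrt_mul hqc.le, mul_inv]
    ring
  have e1 : Rf c (Rf d p) = (rad c ((Rf d p).1 ^ 2 + (Rf d p).2 ^ 2) * (Rf d p).1,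
    rad c ((Rf d p).1 ^ 2 + (Rf d p).2 ^ 2) * (Rf d p).2) := rfl
  have e2 : (Rf d p).1 = rad d (p.1 ^ 2 + p.2 ^ 2) * p.1 := rfl
  have e3 : (Rf d p).2 = rad d (p.1 ^ 2 + p.2 ^ 2) * p.2 := rfl
  have e4 : Rf (c * d) p = (rad (c * d) (p.1 ^ 2 + p.2 ^ 2) * p.1,
    rad (c * d) (p.1 ^ 2 + p.2 ^ 2) * p.2) := rfl
  generalize rad c ((Rf d p).1 ^ 2 + (Rf d p).2 ^ 2) = w at e1 key
  rw [e1, e4, ← key, e2, e3]
  ext <;> simp only <;> ring

lemma Rf_one (p : P2) : Rf 1 p = p := by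
  unfold Rf rad
  ext <;> simp

/-- the radial map as a permutation of the closed disk -/
noncomputable def Rp (c : ℝ) (hc : 0 < c) : Equiv.Perm DD where
  toFun p := ⟨Rf c p.1, Rf_le hc p.2⟩
  invFun p := ⟨Rf c⁻¹ p.1, Rf_le (inv_pos.2 hc) p.2⟩
  left_inv p := by
    apply Subtype.ext
    show Rf c⁻¹ (Rf c p.1) = p.1
    rw [Rf_Rf (inv_pos.2 hc) hc p.2, inv_mul_cancel₀ hc.ne', Rf_one]
  right_inv p := by
    apply Subtype.ext
    show Rf c (Rf c⁻¹ p.1) = p.1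
    rw [Rf_Rf hc (inv_pos.2 hc) p.2, mul_inv_cancel₀ hc.ne', Rf_one]

lemma hasDerivAt_rad {c r : ℝ} (hq : 0 < 1 + (c ^ 2 - 1) * r) :
    HasDerivAt (rad c) (c * (-((c ^ 2 - 1) / (2 * Real.sqrt (1 + (c ^ 2 - 1) * r))) /
      (Real.sqrt (1 + (c ^ 2 - 1) * r)) ^ 2)) r := by
  have h1 : HasDerivAt (fun r : ℝ => 1 + (c ^ 2 - 1) * r) (c ^ 2 - 1) r := by
    have := ((hasDerivAt_id r).const_mul (c ^ 2 - 1)).const_add 1
    simpa using this
  exact ((h1.sqrt hq.ne').inv (Real.sqrt_pos.2 hq).ne').const_mul c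

lemma Rf_det {c : ℝ} (hc : 0 < c) {p : P2} (hp : p.1 ^ 2 + p.2 ^ 2 ≤ 1) :
    0 < (fderiv ℝ (Rf c) p).det := by
  have h0 : 0 ≤ p.1 ^ 2 + p.2 ^ 2 := by positivity
  have hq := q_pos hc h0 hp
  set s := Real.sqrt (1 + (c ^ 2 - 1) * (p.1 ^ 2 + p.2 ^ 2)) with hs
  have hs0 : 0 < s := Real.sqrt_pos.2 hq
  have hs2 : s ^ 2 = 1 + (c ^ 2 - 1) * (p.1 ^ 2 + p.2 ^ 2) := Real.sq_sqrt hq.le
  have hfst : HasFDerivAt (fun p : P2 => p.1) (ContinuousLinearMap.fst ℝ ℝ ℝ) p := hasFDerivAt_fst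
  have hsnd : HasFDerivAt (fun p : P2 => p.2) (ContinuousLinearMap.snd ℝ ℝ ℝ) p := hasFDerivAt_snd
  have hr := (hfst.pow 2).add (hsnd.pow 2)
  have hm := (hasDerivAt_rad hq).comp_hasFDerivAt p hr
  have hF := (hm.mul hfst).prodMk (hm.mul hsnd)
  have hF' : HasFDerivAt (Rf c) _ p := hF
  rw [hF'.fderiv, det_P2]
  simp only [ContinuousLinearMap.prod_apply, add_apply,
    smul_apply, ContinuousLinearMap.coe_fst', ContinuousLinearMap.coe_snd',
    Function.comp, smul_eq_mul, ← hs]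
  have hrad : rad c (p.1 ^ 2 + p.2 ^ 2) = c / s := by
    unfold rad; rw [← hs]; rfl
  have e5 : ((fun x : P2 => x.1 ^ 2) + fun x : P2 => x.2 ^ 2) p = p.1 ^ 2 + p.2 ^ 2 := rfl
  rw [e5, hrad]
  have e6 : s ^ 2 - (c ^ 2 - 1) * (p.1 ^ 2 + p.2 ^ 2) = 1 := by rw [hs2]; ring
  have e7 : 0 < c ^ 2 / s ^ 4 * (s ^ 2 - (c ^ 2 - 1) * (p.1 ^ 2 + p.2 ^ 2)) := by
    rw [e6]; positivity
  refine lt_of_lt_of_eq e7 ?_
  clear_value s
  simp only [nsmul_eq_mul, Nat.cast_ofNat]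
  field_simp
  ring

/-- a smooth function which is the identity on `[-κ/2, ∞)` and at least `-κ` -/
noncomputable def psk (κ u : ℝ) : ℝ := u * Real.smoothTransition ((u + κ) * (2 / κ))

lemma psk_eq {κ u : ℝ} (hκ : 0 < κ) (hu : -(κ / 2) ≤ u) : psk κ u = u := by
  unfold psk
  rw [Real.smoothTransition.one_of_one_le, mul_one]
  have : (κ / 2) * (2 / κ) ≤ (u + κ) * (2 / κ) :=
    mul_le_mul_of_nonneg_right (by linarith) (by positivity)
  have e : (κ / 2) * (2 / κ) = 1 := by field_simp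
  linarith

lemma psk_ge {κ u : ℝ} (hκ : 0 < κ) : -κ ≤ psk κ u := by
  unfold psk
  have s0 := Real.smoothTransition.nonneg ((u + κ) * (2 / κ))
  have s1 := Real.smoothTransition.le_one ((u + κ) * (2 / κ))
  rcases le_or_gt 0 u with h | h
  · have := mul_nonneg h s0
    linarith
  · rcases le_or_gt u (-κ) with h2 | h2
    · rw [Real.smoothTransition.zero_of_nonpos, mul_zero]
      · linarith
      · exact mul_nonpos_of_nonpos_of_nonneg (by linarith) (by positivity)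
    · nlinarith

lemma psk_le {κ u : ℝ} (hu : u ≤ 1) : psk κ u ≤ 1 := by
  unfold psk
  have s0 := Real.smoothTransition.nonneg ((u + κ) * (2 / κ))
  have s1 := Real.smoothTransition.le_one ((u + κ) * (2 / κ))
  rcases le_or_gt 0 u with h | h
  · nlinarith
  · nlinarith

lemma psk_smooth (κ : ℝ) : ContDiff ℝ ∞ (psk κ) := by
  unfold psk
  exact contDiff_id.mul (Real.smoothTransition.contDiff.comp
    ((contDiff_id.add contDiff_const).mul contDiff_const))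

/-- the denominator -/
noncomputable def qk (c r : ℝ) : ℝ := c ^ 2 + (1 - c ^ 2) * psk (c ^ 2 / 2) (1 - r)

lemma qk_pos {c r : ℝ} (hc : 0 < c) (hr : 0 ≤ r) : 0 < qk c r := by
  unfold qk
  have hc2 : 0 < c ^ 2 := by positivity
  have h1 := psk_ge (u := 1 - r) (by positivity : 0 < c ^ 2 / 2)
  have h2 := psk_le (κ := c ^ 2 / 2) (by linarith : 1 - r ≤ 1)
  rcases le_or_gt (c ^ 2) 1 with h | h
  · nlinarith
  · nlinarith

lemma qk_eq {c r : ℝ} (hc : 0 < c) (hr : r ≤ 1 + c ^ 2 / 4) : qk c r = 1 + (c ^ 2 - 1) * r := by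
  unfold qk
  rw [psk_eq (by positivity) (by linarith)]
  ring

lemma extD_Rp (c : ℝ) (hc : 0 < c) : ExtD (Rp c hc) := by
  refine ⟨fun p => (c * (Real.sqrt (qk c (p.1 ^ 2 + p.2 ^ 2)))⁻¹ * p.1,
    c * (Real.sqrt (qk c (p.1 ^ 2 + p.2 ^ 2)))⁻¹ * p.2), ?_, ?_, ?_⟩
  · have hr : ContDiff ℝ ∞ (fun p : P2 => p.1 ^ 2 + p.2 ^ 2) :=
      (contDiff_fst.pow 2).add (contDiff_snd.pow 2)
    have hq : ContDiff ℝ ∞ (fun p : P2 => qk c (p.1 ^ 2 + p.2 ^ 2)) := by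
      unfold qk
      exact contDiff_const.add (contDiff_const.mul ((psk_smooth _).comp (contDiff_const.sub hr)))
    have hpos : ∀ p : P2, 0 < qk c (p.1 ^ 2 + p.2 ^ 2) := fun p => qk_pos hc (by positivity)
    have hm : ContDiff ℝ ∞ (fun p : P2 => c * (Real.sqrt (qk c (p.1 ^ 2 + p.2 ^ 2)))⁻¹) :=
      contDiff_const.mul ((hq.sqrt (fun p => (hpos p).ne')).inv
        (fun p => (Real.sqrt_pos.2 (hpos p)).ne'))
    exact (hm.mul contDiff_fst).prodMk (hm.mul contDiff_snd)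
  · intro p
    have hp := p.2
    show Rf c p.1 = _
    unfold Rf rad
    simp only
    rw [qk_eq hc (by nlinarith [sq_nonneg c])]
  · intro p
    have hp := p.2
    have hev : (fun p : P2 => (c * (Real.sqrt (qk c (p.1 ^ 2 + p.2 ^ 2)))⁻¹ * p.1,
        c * (Real.sqrt (qk c (p.1 ^ 2 + p.2 ^ 2)))⁻¹ * p.2)) =ᶠ[𝓝 (p : P2)] Rf c := by
      have ho : IsOpen {p : P2 | p.1 ^ 2 + p.2 ^ 2 < 1 + c ^ 2 / 4} :=
        isOpen_lt (by fun_prop) continuous_const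
      have hm : (p : P2) ∈ {p : P2 | p.1 ^ 2 + p.2 ^ 2 < 1 + c ^ 2 / 4} := by
        have : 0 < c ^ 2 / 4 := by positivity
        show (p : P2).1 ^ 2 + (p : P2).2 ^ 2 < 1 + c ^ 2 / 4
        linarith
      filter_upwards [ho.mem_nhds hm] with q hq
      have hq' : q.1 ^ 2 + q.2 ^ 2 ≤ 1 + c ^ 2 / 4 := le_of_lt hq
      unfold Rf rad
      rw [qk_eq hc hq']
    rw [hev.fderiv_eq]
    exact Rf_det hc hp

lemma Rp_mem (c : ℝ) (hc : 0 < c) : Rp c hc ∈ GG := by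
  refine ⟨extD_Rp c hc, ?_, ?_⟩
  · have : (Rp c hc)⁻¹ = Rp c⁻¹ (inv_pos.2 hc) := by
      apply Equiv.ext
      intro p
      rfl
    rw [this]
    exact extD_Rp _ _
  · apply Subtype.ext
    show Rf c 0 = 0
    unfold Rf
    ext <;> simp

lemma nq_Rp {ε : ℝ} (h0 : 0 < ε) (h1 : ε < 1) (p : DD) (hp : nq p ≤ 1 - ε) :
    nq (Rp ε h0 p) < ε := by
  have hr0 : 0 ≤ nq p := by unfold nq; positivity
  have h : nq (Rp ε h0 p) * (1 + (ε ^ 2 - 1) * nq p) = ε ^ 2 * nq p := Rf_nq h0 p.2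
  have hq : 0 < 1 + (ε ^ 2 - 1) * nq p := q_pos h0 hr0 p.2
  by_contra hcon
  push Not at hcon
  have h2 := mul_le_mul_of_nonneg_right hcon hq.le
  have h3 : ε ≤ 1 + (ε ^ 2 - 1) * nq p := by
    have : 0 ≤ ε ^ 2 * nq p := by positivity
    linarith
  have h4 : ε * ε ≤ ε ^ 2 * nq p := by
    calc ε * ε ≤ ε * (1 + (ε ^ 2 - 1) * nq p) := mul_le_mul_of_nonneg_left h3 h0.le
      _ ≤ nq (Rp ε h0 p) * (1 + (ε ^ 2 - 1) * nq p) := h2
      _ = ε ^ 2 * nq p := h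
  have h5 : ε ^ 2 * nq p ≤ ε ^ 2 * (1 - ε) := mul_le_mul_of_nonneg_left hp (by positivity)
  have h6 : 0 < ε ^ 2 * ε := by positivity
  nlinarith

/-- elements supported in the annulus -/
def KS (ε : ℝ) : Subgroup (Equiv.Perm DD) where
  carrier := {f | f ∈ GG ∧ ∀ p : DD, (nq p < ε ∨ 1 - ε < nq p) → f p = p}
  mul_mem' := by
    rintro f g ⟨hf, h1⟩ ⟨hg, h2⟩
    exact ⟨GG.mul_mem hf hg, fun p hp => by rw [Equiv.Perm.mul_apply, h2 p hp, h1 p hp]⟩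
  one_mem' := ⟨GG.one_mem, fun _ _ => rfl⟩
  inv_mem' := by
    rintro f ⟨hf, h1⟩
    exact ⟨GG.inv_mem hf, fun p hp => by rw [Equiv.Perm.inv_eq_iff_eq, h1 p hp]⟩

theorem disp (hA2 : S_A2) : S_DISP := by
  intro μ hμ x hx y hy
  obtain ⟨⟨hxG, ε1, he1, hx1⟩, ⟨_, ε2, he2, hx2⟩⟩ := hx
  obtain ⟨⟨hyG, ε3, he3, hy1⟩, ⟨_, ε4, he4, hy2⟩⟩ := hy
  obtain ⟨ε, h0, h12, ha, hb, hc, hd⟩ : ∃ ε : ℝ, 0 < ε ∧ ε < 1 / 2 ∧ ε ≤ ε1 ∧ ε ≤ ε2 ∧ ε ≤ ε3 ∧
      ε ≤ ε4 := by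
    refine ⟨min (1 / 3) (min ε1 (min ε2 (min ε3 ε4))), by positivity, ?_, ?_, ?_, ?_, ?_⟩
    · exact lt_of_le_of_lt (min_le_left _ _) (by norm_num)
    · exact (min_le_right _ _).trans (min_le_left _ _)
    · exact (min_le_right _ _).trans ((min_le_right _ _).trans (min_le_left _ _))
    · exact (min_le_right _ _).trans ((min_le_right _ _).trans
        ((min_le_right _ _).trans (min_le_left _ _)))
    · exact (min_le_right _ _).trans ((min_le_right _ _).trans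
        ((min_le_right _ _).trans (min_le_right _ _)))
  have hxK : x ∈ KS ε := by
    refine ⟨hxG, fun p hp => ?_⟩
    rcases hp with hp | hp
    · exact hx2 p (by linarith)
    · exact hx1 p (by linarith)
  have hyK : y ∈ KS ε := by
    refine ⟨hyG, fun p hp => ?_⟩
    rcases hp with hp | hp
    · exact hy2 p (by linarith)
    · exact hy1 p (by linarith)
  have hK : HomOn (KS ε) μ := by
    refine hA2 (Equiv.Perm DD) GG (KS ε) μ (Rp ε h0) hμ (fun f hf => hf.1) (Rp_mem ε h0) ?_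
    intro k hk a hak b hbk
    obtain ⟨_, haf⟩ := hak
    obtain ⟨_, hbf⟩ := hbk
    set G : Equiv.Perm DD := (Rp ε h0) ^ k with hG
    have hg : ∀ p : DD, nq p ≤ 1 - ε → nq (G p) < ε := by
      have : ∀ m : ℕ, ∀ p : DD, nq p ≤ 1 - ε → nq (((Rp ε h0) ^ (m + 1)) p) < ε := by
        intro m
        induction m with
        | zero => intro p hp; rw [zero_add, pow_one]; exact nq_Rp h0 (by linarith) p hp
        | succ m ih =>
          intro p hp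
          rw [pow_succ', Equiv.Perm.mul_apply]
          exact nq_Rp h0 (by linarith) _ (by linarith [ih p hp])
      intro p hp
      have := this (k - 1) p hp
      rwa [Nat.sub_add_cancel hk] at this
    -- points outside the annulus
    have hA : ∀ f : Equiv.Perm DD, (∀ p : DD, (nq p < ε ∨ 1 - ε < nq p) → f p = p) →
        ∀ p : DD, ¬ (nq p < ε ∨ 1 - ε < nq p) → ¬ (nq (f p) < ε ∨ 1 - ε < nq (f p)) := by
      intro f hf p hp h
      have h1 := hf (f p) h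
      have h2 := f.injective h1
      rw [h2] at h
      exact hp h
    have ha1 : ∀ p : DD, ε ≤ nq p → (G * a * G⁻¹) p = p := by
      intro p hp
      rw [Equiv.Perm.mul_apply, Equiv.Perm.mul_apply]
      have hq : nq (G⁻¹ p) < ε ∨ 1 - ε < nq (G⁻¹ p) := by
        by_contra hcon
        push Not at hcon
        have := hg (G⁻¹ p) hcon.2
        rw [show G (G⁻¹ p) = p from G.apply_symm_apply p] at this
        linarith
      rw [haf _ hq]
      exact G.apply_symm_apply p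
    have ha2 : ∀ p : DD, nq p < ε → nq ((G * a * G⁻¹) p) < ε := by
      intro p hp
      by_contra hcon
      push Not at hcon
      have h1 := ha1 _ hcon
      have h2 := (G * a * G⁻¹).injective h1
      rw [h2] at hcon
      linarith
    have hb2 : ∀ p : DD, ε ≤ nq p → ε ≤ nq (b p) := by
      intro p hp
      by_contra hcon
      push Not at hcon
      have h1 := hbf (b p) (Or.inl hcon)
      have h2 := b.injective h1
      rw [h2] at hcon
      linarith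
    show G * a * G⁻¹ * b = b * (G * a * G⁻¹)
    apply Equiv.ext
    intro p
    rw [Equiv.Perm.mul_apply, Equiv.Perm.mul_apply b]
    rcases lt_or_ge (nq p) ε with hp | hp
    · rw [hbf p (Or.inl hp), hbf _ (Or.inl (ha2 p hp))]
    · rw [ha1 p hp, ha1 _ (hb2 p hp)]
  exact hK x hxK y hyK

end Pool.Agent.W923.DQ
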