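import Pool.Agent.W133.DQ.StB

/-! Invariance under the stages R and U. -/

set_option autoImplicit false

open scoped ContDiff
open Set Filter Topology

namespace Pool.Agent.W923.DQ

open Pool.Agent.W133.DQ

lemma isG_unique {f g : Equiv.Perm P2} {u : P2 → ℝ} (hf : IsG f u) (hg : IsG g u) : f = g := by
  apply Equiv.ext
  intro p
  rw [hf p, hg p]

theorem ru (hRE : S_ROLLEQ) (hUN : S_UNROLL) (hUA : S_UADD) (hSH : S_SHEAR) (hCL : S_CONJL)
    (hR0 : S_R0) (hPO : S_POIN) (hNV : S_NV) (hCUT : S_CUT) : S_RU := by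
  intro L hL A hA
  obtain ⟨δ0, C, hδ0, hC, h0⟩ := hR0 A hA
  obtain ⟨δu, hδu, hun⟩ := hUN
  obtain ⟨δa, hδa, hua⟩ := hUA L hL
  obtain ⟨δs, hδs, hsh⟩ := hSH L hL (A : ℝ)
  obtain ⟨hconj, -⟩ := hCL L hL
  obtain ⟨m, hm0, hmu, hma, hms⟩ : ∃ m : ℝ, 0 < m ∧ m ≤ δu ∧ m ≤ δa ∧ m ≤ δs :=
    ⟨min δu (min δa δs), lt_min hδu (lt_min hδa hδs), min_le_left _ _,
      (min_le_right _ _).trans (min_le_left _ _), (min_le_right _ _).trans (min_le_right _ _)⟩
  have hd : 0 < min δ0 (m / (3 * C)) := lt_min hδ0 (by positivity)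
  refine ⟨min δ0 (m / (3 * C)), hd, ?_⟩
  intro v hv hsv hNv P hP hGP Q hQ hGQ
  set d := min δ0 (m / (3 * C)) with hdd
  have hCd : 3 * (C * d) ≤ m := by
    have h1 : d ≤ m / (3 * C) := min_le_right _ _
    rw [le_div_iff₀ (by positivity)] at h1
    linarith
  have hCd0 : 0 ≤ C * d := by positivity
  obtain ⟨hf, hper, hsf, hfb, hf1, P', hP', hGP', hPb, hRP⟩ :=
    h0 v hv hsv d hd.le (min_le_left _ _) hNv
  have hPP : P' = P := isG_unique hGP' hGP
  subst hPP
  set f := SR A v with hfdef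
  -- monotonicity of NB
  have nbm : ∀ (u : P2 → ℝ) (a b : ℝ), a ≤ b → NB 1 u a → NB 1 u b := fun u a b hab h p =>
    (h p).trans hab
  -- the stripped function
  have hstr : ∀ p, strip f p = f p - f (0, p.2) := fun p => rfl
  have hs2 : ContDiff ℝ ∞ (fun y : ℝ => f (0, y)) := by
    have : (fun y : ℝ => f (0, y)) = f ∘ (fun y : ℝ => ((0 : ℝ), y)) := rfl
    rw [this]
    exact hf.comp (contDiff_const.prodMk contDiff_id)
  have hs2' : ContDiff ℝ ∞ (fun p : P2 => f (0, p.2)) := hs2.comp contDiff_snd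
  have hst : ContDiff ℝ ∞ (strip f) := hf.sub hs2'
  have hstp : ∀ p : P2, strip f (p.1 + 1, p.2) = strip f p := by
    intro p
    rw [hstr, hstr, hper]
  have hstb : ∀ p, |strip f p| ≤ m := by
    intro p
    rw [hstr]
    have h1 := hfb p
    have h2 := hfb (0, p.2)
    have := abs_sub (f p) (f (0, p.2))
    linarith
  have hst1 : NB 1 (strip f) (2 * (C * d)) := hPO.2.2 f 1 (C * d) hf hf1
  have hst1' : NB 1 (strip f) m := nbm _ _ _ (by linarith) hst1
  have hsb : ∀ p : P2, |f (0, p.2)| ≤ m := fun p => (hfb _).trans (by linarith)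
  have hs1 : NB 1 (fun p : P2 => f (0, p.2)) m := by
    intro p
    rw [norm_iteratedFDeriv_one]
    have e : (fun p : P2 => f (0, p.2)) = fun p => f p - strip f p := by
      funext q; rw [hstr]; ring
    rw [e, fderiv_fun_sub (hf.differentiable (by simp)).differentiableAt
      (hst.differentiable (by simp)).differentiableAt]
    have h1 := hf1 p
    have h2 := hst1 p
    rw [norm_iteratedFDeriv_one] at h1 h2
    have := norm_sub_le (fderiv ℝ f p) (fderiv ℝ (strip f) p)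
    linarith
  -- existence of all the maps
  obtain ⟨P1, hP1, P2', hP2, hG1, hG2, hb1, hb2, hRoll⟩ := hun f hf hper ⟨A, hsf⟩
    (fun p => (hfb p).trans (by linarith)) (nbm _ _ _ (by linarith) hf1)
  obtain ⟨F1, hF1, F2, hF2, hGF1, hGF2, -, -, -⟩ := hun (fun p : P2 => f (0, p.2)) hs2'
    (fun p => rfl) ⟨A, fun p hp => hsf (0, p.2) hp⟩ (fun p => (hsb p).trans hmu)
    (nbm _ _ _ hmu hs1)
  obtain ⟨H1, hH1, H2, hH2, hGH1, hGH2, -, -, -⟩ := hun (strip f) hst hstp
    ⟨A, fun p hp => by rw [hstr, hsf p hp, hsf (0, p.2) hp, sub_zero]⟩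
    (fun p => (hstb p).trans hmu) (nbm _ _ _ hmu hst1')
  have hstar : Pool.Agent.W133.DQ.star (fun p : P2 => f (0, p.2)) (strip f) = f := by
    funext p
    simp only [Pool.Agent.W133.DQ.star, hstr]
    ring
  have key := hua (fun p : P2 => f (0, p.2)) (strip f) hs2' hst (fun p => rfl) hstp
    ⟨A, fun p hp => ⟨hsf (0, p.2) hp, by rw [hstr, hsf p hp, hsf (0, p.2) hp, sub_zero]⟩⟩
    (fun p => (hsb p).trans hma) (nbm _ _ _ hma hs1)
    (fun p => (hstb p).trans hma) (nbm _ _ _ hma hst1')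
    F1 F2 H1 H2 P1 P2' hF1 hF2 hH1 hH2 hP1 hP2 hGF1 hGF2 hGH1 hGH2
    (by rw [hstar]; exact hG1) (by rw [hstar]; exact hG2)
  -- shears
  have hshear := hsh (fun y => f (0, y)) hs2 (fun y hy => hsf (0, y) hy)
    (fun y => ((hfb (0, y)).trans (by linarith)).trans hms)
    (fun y => by
      have hdf : HasDerivAt (fun y : ℝ => f (0, y)) (fderiv ℝ f (0, y) (0, 1)) y := by
        have h1 : HasDerivAt (fun y : ℝ => ((0 : ℝ), y)) ((0 : ℝ), (1 : ℝ)) y :=
          (hasDerivAt_const y (0 : ℝ)).prodMk (hasDerivAt_id y)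
        exact ((hf.differentiable (by simp)).differentiableAt.hasFDerivAt
          (x := ((0 : ℝ), y))).comp_hasDerivAt y h1
      rw [hdf.deriv]
      have h1 := hf1 (0, y)
      rw [norm_iteratedFDeriv_one] at h1
      have h2 := (fderiv ℝ f (0, y)).le_opNorm (0, 1)
      have h3 : ‖((0 : ℝ), (1 : ℝ))‖ = 1 := by simp [Prod.norm_def]
      rw [h3, mul_one, Real.norm_eq_abs] at h2
      linarith)
    F1 hF1 F2 hF2 hGF1 hGF2
  -- Q
  have hQe : Q = H1 * H2 := by
    refine isG_unique hGQ ?_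
    exact hNV.2.1 H1 H2 (un1 (strip f)) (un2 (strip f)) hGH1 hGH2
  have hLQ : L Q = L H1 + L H2 := by
    rw [hQe]; exact hL H1 hH1.1 H2 hH2.1
  -- P
  set S : Equiv.Perm P2 := tr (-8, 0) * P2' * (tr (-8, 0))⁻¹ with hS
  obtain ⟨hSDC, hLS⟩ := hconj P2' hP2.1 (-8, 0)
  have hSapp : ∀ p : P2, S p = (p.1 + un2 f (p.1 + 8, p.2), p.2) := by
    intro p
    rw [hS, Equiv.Perm.mul_apply, Equiv.Perm.mul_apply, tr_inv_apply, hG2, tr_apply]
    ext
    · simp only [Prod.fst_add, Prod.fst_sub, Prod.snd_sub]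
      rw [show p - ((-8 : ℝ), (0 : ℝ)) = (p.1 + 8, p.2) by ext <;> simp]
      simp only [sub_neg_eq_add]
      ring
    · simp
  have hSLP : S ∈ LP := ⟨hSDC, fun p => by rw [hSapp]⟩
  have hcut := hCUT.1
  have hchi0 : ∀ x : ℝ, 2 / 5 ≤ |x - 1 / 2| → chi0 x = 0 := by
    intro x hx
    exact (hcut (1 / 5) (2 / 5) (by norm_num) (by norm_num)).2.2.2 (x - 1 / 2) hx
  have hkap : ∀ x : ℝ, 3 / 5 ≤ |x| → kap x = 0 := by
    intro x hx
    exact (hcut (2 / 5) (3 / 5) (by norm_num) (by norm_num)).2.2.2 x hx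
  have hbS : ∀ p, |((P1 * S) p).1 - p.1| ≤ 1 / 2 := by
    intro p
    rw [Equiv.Perm.mul_apply, hSapp, hG1]
    simp only
    by_cases hx : 3 / 5 ≤ |p.1 + 8|
    · have h1 : un2 f (p.1 + 8, p.2) = 0 := by
        unfold un2
        simp only
        rw [hkap _ hx, zero_mul]
      rw [h1, add_zero]
      have := hb1 (p.1, p.2)
      simpa using this
    · push Not at hx
      have h2 := abs_lt.1 hx
      have h3 := abs_le.1 (hb2 (p.1 + 8, p.2))
      have h4 : un1 f (p.1 + un2 f (p.1 + 8, p.2), p.2) = 0 := by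
        unfold un1
        simp only
        rw [hchi0, zero_mul]
        rw [abs_sub_comm, abs_of_nonneg]
        · linarith [h2.2, h3.2]
        · linarith [h2.2, h3.2]
      rw [h4, add_zero]
      have := hb2 (p.1 + 8, p.2)
      simpa using this
  have hLP : L P' = L (P1 * S) := by
    refine hRE L hL P' hP' (P1 * S) (LP.mul_mem hP1 hSLP) hPb hbS _ hRP hRoll
  have hLP2 : L (P1 * S) = L P1 + L S := hL P1 hP1.1 S hSDC
  rw [hLP, hLP2, hLS, hLQ]
  linarith

end Pool.Agent.W923.DQ
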